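import Pool.Agent.Lib.lead.CXGraphRed

set_option autoImplicit false

namespace Pool.Agent.H.MP_bb030f_lc

open Pool.Agent.Lib.CX

/-- The triangle condition. -/
def Tri {V : Type} (G : SimpleGraph V) : Prop :=
  ∀ S : Set V, Maximal G.IsIndepSet S → ∀ u v, u ∉ S → v ∉ S → G.Adj u v →
    ∃ s ∈ S, G.Adj s u ∧ G.Adj s v

lemma max_iff {V : Type} (G : SimpleGraph V) (S : Set V) : Maximal G.IsIndepSet S ↔
    (∀ a ∈ S, ∀ b ∈ S, ¬ G.Adj a b) ∧ ∀ v ∉ S, ∃ s ∈ S, G.Adj s v := by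
  have h : ∀ T : Set V, G.IsIndepSet T ↔ ∀ a ∈ T, ∀ b ∈ T, ¬ G.Adj a b := fun T =>
    ⟨fun h a ha b hb e => h ha hb e.ne e, fun h a ha b hb _ => h a ha b hb⟩
  rw [Maximal, h]
  refine and_congr_right fun h1 => ⟨fun h2 v hv => ?_, fun h2 T hT hS v hv => ?_⟩
  · by_contra h3
    push Not at h3
    refine hv (h2 ((h (insert v S)).2 ?_) (Set.subset_insert v S) (Set.mem_insert v S))
    rintro a (rfl | ha) b (rfl | hb)
    exacts [G.irrefl, fun e => h3 b hb e.symm, h3 a ha, h1 a ha b hb]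
  · by_contra h3
    obtain ⟨s, h4, h5⟩ := h2 v h3
    exact (h T).1 hT s (hS h4) v hv h5

def TriOn {V : Type} (P : V → Prop) (R : V → V → Prop) : Prop :=
  ∀ S : V → Prop, (∀ a, S a → P a) → (∀ a b, S a → S b → ¬ R a b) →
    (∀ v, P v → ¬ S v → ∃ s, S s ∧ R s v) →
    ∀ u v, P u → P v → ¬ S u → ¬ S v → R u v → ∃ s, S s ∧ R s u ∧ R s v

lemma tri_mk {V : Type} [DecidableEq V] (vs : List V) (es : List (V × V)) (R : V → V → Prop)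
    (h : ∀ p ∈ vs, ∀ q ∈ vs, R p q ↔ p ≠ q ∧ ((p, q) ∈ es ∨ (q, p) ∈ es)) :
    Tri (mkGr vs es).G ↔ TriOn (· ∈ vs) R := by
  let e := mkGrIso vs es
  have ha : ∀ a b, (mkGr vs es).G.Adj a b ↔ R (e a).1 (e b).1 := fun a b => by
    rw [← e.map_rel_iff, h _ (e a).2 _ (e b).2]
    simp
  simp only [Tri, max_iff, ha]
  constructor
  · intro H S h1 h2 h3 u v hu hv h4 h5 h6
    obtain ⟨s, h7⟩ := H {a | S (e a).1} ⟨fun a ha b hb => h2 _ _ ha hb, fun a ha => by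
      obtain ⟨s, h7, h8⟩ := h3 _ (e a).2 ha
      exact ⟨e.symm ⟨s, h1 s h7⟩, by simpa using h7, by simpa using h8⟩⟩
      (e.symm ⟨u, hu⟩) (e.symm ⟨v, hv⟩) (by simpa using h4) (by simpa using h5) (by simpa using h6)
    exact ⟨(e s).1, by simpa using h7⟩
  · intro H S ⟨h1, h2⟩ u v hu hv h3
    have k : ∀ a, (∃ b ∈ S, (e b).1 = (e a).1) → a ∈ S := by
      rintro a ⟨b, h4, h5⟩
      rwa [← e.injective (Subtype.ext h5)]
    obtain ⟨_, ⟨s, h4, rfl⟩, h5⟩ := H (fun p => ∃ a ∈ S, (e a).1 = p)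
      (by rintro _ ⟨a, -, rfl⟩; exact (e a).2)
      (by rintro _ _ ⟨a, h4, rfl⟩ ⟨b, h5, rfl⟩; exact h1 a h4 b h5)
      (fun p hp h4 => by
        obtain ⟨s, h5, h6⟩ := h2 (e.symm ⟨p, hp⟩) fun h5 => h4 ⟨_, h5, by simp⟩
        exact ⟨_, ⟨s, h5, rfl⟩, by simpa using h6⟩)
      _ _ (e u).2 (e v).2 (fun h4 => hu (k u h4)) (fun h4 => hv (k v h4)) h3
    exact ⟨s, h4, h5⟩

def Cis {V : Type} (G : SimpleGraph V) : Prop :=
  ∀ Q S : Set V, Maximal G.IsClique Q → Maximal G.IsIndepSet S → (Q ∩ S).Nonempty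

lemma maxc_iff {V : Type} (G : SimpleGraph V) (Q : Set V) (h : Maximal G.IsClique Q) (v : V)
    (hv : ∀ q ∈ Q, q ≠ v → G.Adj q v) : v ∈ Q :=
  h.2 (h.1.insert fun q hq e => (hv q hq e.symm).symm) (Set.subset_insert v Q) (Set.mem_insert v Q)

def CisOn {V : Type} (P : V → Prop) (R : V → V → Prop) : Prop :=
  ∀ Q S : V → Prop, (∀ a, Q a → P a) → (∀ a b, Q a → Q b → a ≠ b → R a b) →
    (∀ v, P v → (∀ q, Q q → q ≠ v → R q v) → Q v) →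
    (∀ a, S a → P a) → (∀ a b, S a → S b → ¬ R a b) →
    (∀ v, P v → ¬ S v → ∃ s, S s ∧ R s v) → ∃ v, Q v ∧ S v

lemma cis_mk {V : Type} [DecidableEq V] (vs : List V) (es : List (V × V)) (R : V → V → Prop)
    (h : ∀ p ∈ vs, ∀ q ∈ vs, R p q ↔ p ≠ q ∧ ((p, q) ∈ es ∨ (q, p) ∈ es))
    (H : CisOn (· ∈ vs) R) : Cis (mkGr vs es).G := by
  let e := mkGrIso vs es
  have ha : ∀ a b, (mkGr vs es).G.Adj a b ↔ R (e a).1 (e b).1 := fun a b => by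
    rw [← e.map_rel_iff, h _ (e a).2 _ (e b).2]
    simp
  intro Q S hQ hS
  obtain ⟨h1, h2⟩ := (max_iff _ _).1 hS
  simp only [ha] at h1 h2
  obtain ⟨_, ⟨q, h3, rfl⟩, s, h4, h5⟩ := H (fun p => ∃ a ∈ Q, (e a).1 = p)
    (fun p => ∃ a ∈ S, (e a).1 = p) (by rintro _ ⟨a, -, rfl⟩; exact (e a).2)
    (by
      rintro _ _ ⟨a, h4, rfl⟩ ⟨b, h5, rfl⟩ h6
      exact (ha a b).1 (hQ.1 h4 h5 fun h7 => h6 (by rw [h7])))
    (fun p hp h4 => ⟨e.symm ⟨p, hp⟩, maxc_iff _ _ hQ _ fun q h5 h6 => (ha _ _).2 (by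
      simpa using h4 _ ⟨q, h5, rfl⟩ fun h7 => h6 (e.injective (Subtype.ext (by simpa using h7)))),
      by simp⟩)
    (by rintro _ ⟨a, -, rfl⟩; exact (e a).2)
    (by rintro _ _ ⟨a, h4, rfl⟩ ⟨b, h5, rfl⟩; exact h1 a h4 b h5)
    (fun p hp h4 => by
      obtain ⟨s, h5, h6⟩ := h2 (e.symm ⟨p, hp⟩) fun h5 => h4 ⟨_, h5, by simp⟩
      exact ⟨_, ⟨s, h5, rfl⟩, by simpa using h6⟩)
  exact ⟨q, h3, e.injective (Subtype.ext h5) ▸ h4⟩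

abbrev L := ℕ × Bool
abbrev W := ℕ × L × Cl3 ℕ

def inn (a : L) (C : Cl3 ℕ) : Prop := a = C.1 ∨ a = C.2.1 ∨ a = C.2.2
def BB (a b : L) : Prop := a.1 = b.1 ∧ a.2 ≠ b.2
def K (C : Cl3 ℕ) : W := (0, (0, true), C)
def X (a : L) : W := (1, a, (0, true), (0, true), (0, true))
def M (a : L) (C : Cl3 ℕ) : W := (2, a, C)

instance (a : L) (C : Cl3 ℕ) : Decidable (inn a C) := by unfold inn; infer_instance
instance (a b : L) : Decidable (BB a b) := by unfold BB; infer_instance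

def rel (p q : W) : Prop :=
  (p.1 = 0 ∧ q.1 = 0) ∨ (p.1 = 0 ∧ q.1 = 1 ∧ inn q.2.1 p.2.2) ∨
  (p.1 = 0 ∧ q.1 = 2 ∧ p.2.2 ≠ q.2.2) ∨ (p.1 = 1 ∧ q.1 = 1 ∧ BB p.2.1 q.2.1) ∨
  (p.1 = 1 ∧ q.1 = 2 ∧ (inn p.2.1 q.2.2 ∨ BB p.2.1 q.2.1)) ∨
  (p.1 = 2 ∧ q.1 = 2 ∧ (p.2.2 ≠ q.2.2 ∨ BB p.2.1 q.2.1))

instance (p q : W) : Decidable (rel p q) := by unfold rel; infer_instance

def R (p q : W) : Prop := p ≠ q ∧ (rel p q ∨ rel q p)

def ats (φ : List (Cl3 ℕ)) : List L := φ.flatMap Cl3.vars ×ˢ [true, false]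

def vs (φ : List (Cl3 ℕ)) : List W :=
  φ.map K ++ ((ats φ).map X ++ (ats φ ×ˢ φ).map fun y => M y.1 y.2)

def es (φ : List (Cl3 ℕ)) : List (W × W) := (vs φ ×ˢ vs φ).filter fun e => rel e.1 e.2

variable {φ : List (Cl3 ℕ)}

lemma R.symm {p q : W} (h : R p q) : R q p := ⟨h.1.symm, h.2.symm⟩

lemma BB_comm {a b : L} : BB a b ↔ BB b a :=
  ⟨fun h => ⟨h.1.symm, h.2.symm⟩, fun h => ⟨h.1.symm, h.2.symm⟩⟩

lemma BB.ne {a b : L} (h : BB a b) : a ≠ b := fun e => h.2 (by rw [e])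

lemma mem_vs {p : W} : p ∈ vs φ ↔ (∃ C ∈ φ, K C = p) ∨ (∃ x ∈ ats φ, X x = p) ∨
    ∃ a C, (a ∈ ats φ ∧ C ∈ φ) ∧ M a C = p := by
  simp only [vs, List.mem_append, List.mem_map]
  refine or_congr_right (or_congr_right ⟨fun ⟨y, h, e⟩ => ⟨y.1, y.2, List.pair_mem_product.1 h, e⟩,
    fun ⟨a, C, h, e⟩ => ⟨(a, C), List.pair_mem_product.2 h, e⟩⟩)

lemma mem_ats {a : L} : a ∈ ats φ ↔ ∃ C ∈ φ, a.1 ∈ C.vars := by
  obtain ⟨x, b⟩ := a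
  refine List.pair_mem_product.trans ?_
  cases b <;> simp

lemma inn_ats {a : L} {C : Cl3 ℕ} (hC : C ∈ φ) (h : inn a C) : a ∈ ats φ :=
  mem_ats.2 ⟨C, hC, by rcases h with rfl | rfl | rfl <;> simp [Cl3.vars]⟩

lemma ok_inn {v : ℕ → Bool} {C : Cl3 ℕ} : C.ok v ↔ ∃ a, inn a C ∧ v a.1 = a.2 := by
  simp [Cl3.ok, inn, -Prod.exists]

lemma KK {C D : Cl3 ℕ} : R (K C) (K D) ↔ C ≠ D := by simp [R, rel, K]
lemma XK {C : Cl3 ℕ} {x : L} : R (X x) (K C) ↔ inn x C := by simp [R, rel, K, X]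
lemma MK {C D : Cl3 ℕ} {a : L} : R (M a D) (K C) ↔ C ≠ D := by simp [R, rel, K, M]
lemma XX {x y : L} : R (X x) (X y) ↔ BB x y := by
  simp only [R, rel, X, BB_comm (a := y)]
  simp
  exact fun h => h.ne
lemma XM {x a : L} {C : Cl3 ℕ} : R (X x) (M a C) ↔ inn x C ∨ BB x a := by
  simp [R, rel, X, M]
lemma MM {a b : L} {C D : Cl3 ℕ} : R (M a C) (M b D) ↔ C ≠ D ∨ BB a b := by
  simp only [R, rel, M, BB_comm (a := b), ne_comm (a := D)]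
  simp
  rintro (h | h) h1
  exacts [h, absurd h1 h.ne]

lemma sat_not {C D : Cl3 ℕ} (hC : C ∈ φ) (hD : D ∈ φ)
    (h : ∀ x, inn x C → ¬ inn x D) (hs : Sat3 φ) : ¬ TriOn (· ∈ vs φ) R := by
  obtain ⟨v, hv⟩ := hs
  intro H
  obtain ⟨_, ⟨x, -, -, rfl⟩, h1, h2⟩ := H (fun p => ∃ x ∈ ats φ, v x.1 = x.2 ∧ X x = p)
    (by rintro _ ⟨x, h1, -, rfl⟩; exact mem_vs.2 (.inr (.inl ⟨x, h1, rfl⟩)))
    (by
      rintro _ _ ⟨x, -, h1, rfl⟩ ⟨y, -, h2, rfl⟩ h3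
      exact (XX.1 h3).2 (by rw [← h1, ← h2, (XX.1 h3).1]))
    (fun p hp h1 => by
      rcases mem_vs.1 hp with ⟨E, hE, rfl⟩ | ⟨y, hy, rfl⟩ | ⟨a, E, ⟨-, hE⟩, rfl⟩
      · obtain ⟨x, h2, h3⟩ := ok_inn.1 (hv E hE)
        exact ⟨_, ⟨x, inn_ats hE h2, h3, rfl⟩, XK.2 h2⟩
      · exact ⟨_, ⟨(y.1, v y.1), mem_ats.2 (mem_ats.1 hy :), rfl, rfl⟩,
          XX.2 ⟨rfl, fun e => h1 ⟨y, hy, e, rfl⟩⟩⟩
      · obtain ⟨x, h2, h3⟩ := ok_inn.1 (hv E hE)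
        exact ⟨_, ⟨x, inn_ats hE h2, h3, rfl⟩, XM.2 (.inl h2)⟩)
    (K C) (K D) (mem_vs.2 (.inl ⟨C, hC, rfl⟩)) (mem_vs.2 (.inl ⟨D, hD, rfl⟩))
    (by simp [K, X]) (by simp [K, X])
    (KK.2 fun e => h C.1 (.inl rfl) (.inl (by rw [e])))
  exact h x (XK.1 h1) (XK.1 h2)

def Z (φ : List (Cl3 ℕ)) (J : Cl3 ℕ) (p : W) : Prop :=
  p.2.1 ∈ ats φ ∧ ((¬ inn p.2.1 J ∧ X p.2.1 = p) ∨ M p.2.1 J = p)

lemma ZZ {J : Cl3 ℕ} {p q : W} (hp : Z φ J p) (hq : Z φ J q) : R p q ↔ BB p.2.1 q.2.1 := by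
  rcases hp.2 with ⟨h0, h1⟩ | h1 <;> rcases hq.2 with ⟨h3, h2⟩ | h2 <;>
    conv_lhs => rw [← h1, ← h2]
  · exact XX
  · simp [XM, h0]
  · rw [BB_comm]
    refine Iff.trans ⟨R.symm, R.symm⟩ ?_
    simp [XM, h3]
  · simp [MM]

lemma tri3 {J : Cl3 ℕ} {p : W} (hp : p ∈ vs φ) :
    p = K J ∨ Z φ J p ∨ (R (K J) p ∧ ∀ a, R (M a J) p) := by
  rcases mem_vs.1 hp with ⟨E, hE, rfl⟩ | ⟨y, hy, rfl⟩ | ⟨a, E, ⟨ha, -⟩, rfl⟩
  · by_cases h : E = J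
    · exact .inl (h ▸ rfl)
    · exact .inr (.inr ⟨KK.2 (Ne.symm h), fun _ => MK.2 h⟩)
  · by_cases h : inn y J
    · exact .inr (.inr ⟨(XK.2 h).symm, fun _ => (XM.2 (.inl h)).symm⟩)
    · exact .inr (.inl ⟨hy, .inl ⟨h, rfl⟩⟩)
  · by_cases h : E = J
    · exact .inr (.inl ⟨ha, .inr (h ▸ rfl)⟩)
    · exact .inr (.inr ⟨(MK.2 (Ne.symm h)).symm, fun _ => MM.2 (.inl (Ne.symm h))⟩)

lemma unsat_cis (hs : ¬ Sat3 φ) : CisOn (· ∈ vs φ) R := by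
  classical
  intro Q S q1 q2 q3 h1 h2 h3
  by_cases hK : ∃ J ∈ φ, S (K J)
  · obtain ⟨J, hJ, hS⟩ := hK
    by_contra hc
    push Not at hc
    have nk : ∀ z, Z φ J z → ¬ R (K J) z := by
      intro z h4 h7
      rcases h4.2 with ⟨h8, h9⟩ | h9 <;> rw [← h9] at h7
      · exact h8 (XK.1 h7.symm)
      · exact MK.1 h7.symm rfl
    have dom : ∀ z, Q z → Z φ J z → ∃ s, S s ∧ Z φ J s ∧ BB s.2.1 z.2.1 := by
      intro z hz h4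
      obtain ⟨s, h6, h7⟩ := h3 z (q1 z hz) (hc z hz)
      rcases tri3 (J := J) (h1 s h6) with rfl | h8 | h8
      · exact absurd h7 (nk z h4)
      · exact ⟨s, h6, h8, (ZZ h8 h4).1 h7⟩
      · exact absurd h8.1 (h2 _ _ hS h6)
    obtain ⟨z, hz, zz⟩ : ∃ z, Q z ∧ Z φ J z := by
      by_contra h4
      refine hc _ (q3 _ (h1 _ hS) fun q h5 h6 => ?_) hS
      exact (((tri3 (q1 q h5)).resolve_left h6).resolve_left fun h7 => h4 ⟨q, h5, h7⟩).1.symm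
    obtain ⟨s, s1, s2, s3⟩ := dom z hz zz
    obtain ⟨w, hw, ww, w3⟩ : ∃ w, Q w ∧ Z φ J w ∧ BB w.2.1 z.2.1 := by
      by_contra h4
      have zm : Z φ J (M s.2.1 J) := ⟨s2.1, .inr rfl⟩
      refine h4 ⟨_, q3 (M s.2.1 J) (mem_vs.2 (.inr (.inr ⟨_, J, ⟨s2.1, hJ⟩, rfl⟩)))
        fun q h5 _ => ?_, zm, s3⟩
      rcases tri3 (J := J) (q1 q h5) with rfl | h8 | h8
      · exact absurd hS (hc _ h5)
      · by_cases e : q = z
        · exact e ▸ ((ZZ zm zz).2 s3).symm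
        · exact absurd ⟨q, h5, h8, (ZZ h8 zz).1 (q2 q z h5 hz e)⟩ h4
      · exact (h8.2 _).symm
    obtain ⟨t, t1, t2, t3⟩ := dom w hw ww
    refine h2 s t s1 t1 ((ZZ s2 t2).2 ⟨s3.1.trans (w3.1.symm.trans t3.1.symm), ?_⟩)
    have a1 := s3.2
    have a2 := w3.2
    have a3 := t3.2
    revert a1 a2 a3
    cases s.2.1.2 <;> cases z.2.1.2 <;> cases w.2.1.2 <;> cases t.2.1.2 <;> simp
  · push Not at hK
    have key : ∀ C ∈ φ, (∃ x, inn x C ∧ S (X x)) ∨ ∃ a D, D ∈ φ ∧ C ≠ D ∧ S (M a D) := by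
      intro C hC
      obtain ⟨s, h4, h5⟩ := h3 _ (mem_vs.2 (.inl ⟨C, hC, rfl⟩)) (hK C hC)
      rcases mem_vs.1 (h1 s h4) with ⟨E, hE, rfl⟩ | ⟨y, -, rfl⟩ | ⟨a, E, ⟨-, hE⟩, rfl⟩
      · exact absurd h4 (hK E hE)
      · exact .inl ⟨y, XK.1 h5, h4⟩
      · exact .inr ⟨a, E, hE, MK.1 h5, h4⟩
    refine absurd ⟨fun x => decide (S (X (x, true))), fun C hC => ok_inn.2 ?_⟩ hs
    rcases key C hC with ⟨⟨x, b⟩, h4, h5⟩ | ⟨a, D, hD, -, h4⟩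
    · refine ⟨_, h4, ?_⟩
      cases b
      · exact decide_eq_false fun h6 => h2 _ _ h5 h6 (XX.2 ⟨rfl, by simp⟩)
      · exact decide_eq_true h5
    · rcases key D hD with ⟨x, h5, h6⟩ | ⟨b, E, -, h5, h6⟩
      · exact absurd (XM.2 (.inl h5)) (h2 _ _ h6 h4)
      · exact absurd (MM.2 (.inl h5)) (h2 _ _ h4 h6)

def pad (φ : List (Cl3 ℕ)) : List (Cl3 ℕ) :=
  unit (3 * φ.length) true :: unit (3 * φ.length + 1) true :: φ

set_option synthInstance.maxSize 4000 in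
/-- Every property between CIS (with a vertex) and the triangle condition is coNP-hard. -/
theorem sandwich (A : Gr → Prop) (h1 : ∀ a : Gr, 0 < a.n → Cis a.G → A a)
    (h2 : ∀ a : Gr, A a → Tri a.G) : NPHard fun a => ¬ A a := by
  refine NPHard.of_sat3 (fun φ => mkGr (vs (pad φ)) (es (pad φ))) ?_ fun φ h => ?_
  · have h1 : PT vs := by unfold vs ats K X M Cl3.vars; fun_prop
    have h2 : PT es := by unfold es rel BB inn; fun_prop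
    have h3 : PT pad := by unfold pad unit; fun_prop
    fun_prop
  · have hR : ∀ p ∈ vs (pad φ), ∀ q ∈ vs (pad φ),
        R p q ↔ p ≠ q ∧ ((p, q) ∈ es (pad φ) ∨ (q, p) ∈ es (pad φ)) :=
      fun p hp q hq => by simp [R, es, hp, hq]
    have hs : Sat3 φ ↔ Sat3 (pad φ) := by
      refine ⟨fun ⟨v, hv⟩ => ⟨fun x => if x < 3 * φ.length then v x else true, ?_⟩,
        fun ⟨v, hv⟩ => ⟨v, fun C hC => hv C (by simp [pad, hC])⟩⟩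
      simp only [pad, List.forall_mem_cons]
      refine ⟨by simp [Cl3.ok, unit], by simp [Cl3.ok, unit], fun C hC => ?_⟩
      have := h C hC
      simp only [Cl3.vars, List.forall_mem_cons] at this
      simpa [Cl3.ok, this.1, this.2.1, this.2.2.1] using hv C hC
    rw [hs]
    refine ⟨fun h3 h4 => sat_not List.mem_cons_self (List.mem_cons_of_mem _ List.mem_cons_self)
      (by simp [inn, unit]) h3 ((tri_mk _ _ R hR).1 (h2 _ h4)),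
      fun h3 => by_contra fun h4 => h3 (h1 _ ?_ (cis_mk _ _ R hR (unsat_cis h4)))⟩
    exact ((mkGrEquiv _ _).symm ⟨K _, mem_vs.2 (.inl ⟨_, List.mem_cons_self, rfl⟩)⟩).pos

lemma ext_clique {V : Type} [Finite V] (G : SimpleGraph V) {T : Set V} (h : G.IsClique T) :
    ∃ Q, T ⊆ Q ∧ Maximal G.IsClique Q := Finite.exists_le_maximal h

end Pool.Agent.H.MP_bb030f_lc
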